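import Pool.Agent.LibHG20.G10
import Pool.Agent.LibGD33.G7
import Pool.Agent.LibGH18.Main
import Pool.Agent.LibSR85.N11
import Pool.Agent.LibSR85.N12

/-! The sum rule of a closed surface of negative curvature: from the frame form of `LibSR85` to the
lengths `tl m` and the traces `trg m`. -/

open MeasureTheory Set Filter Topology
open scoped ContDiff ENNReal NNReal ComplexConjugate

namespace SR85Z

open BGS BR HG20

variable {Γ : Type} [Group Γ] [MulAction Γ Pl] {D : Set Pl} {m : Pl → Co} {a b LK : ℝ}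
  {G : SR85.Dat Γ} {g : Γ} {x0 v0 : Pl} {l : ℝ}

theorem Z_E (h : Ctx D m a b LK G) (x v : Pl) (s : ℝ) :
    G.E x ((s : ℂ) * tc v) = Ex m x (s • v) := by
  have e := h.eq
  subst e
  show Ex m x (tp ((s : ℂ) * tc v)) = _
  rw [tp_mul, tp_tc]

/-- An axis is an axis. -/
theorem ax_of (h : Ctx D m a b LK G) (hA : Axis m g x0 v0 l) : SR85.Ax G g x0 (tc v0) l where
  nu := by rw [norm_tc]; exact hA.unit
  pos := hA.pos
  tr := fun s => by
    rw [Z_E h, Z_E h]
    exact (GD.axis_tr h.hX h.hO h.hm hA s).symm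
  mn := fun x => by
    obtain ⟨k, hk⟩ := GD.gd_had h.hX h.hm
    have h1 := BGM.tl_le m g x
    rw [GD.axis_tl h.hX h.hO h.hm hA, BGM.ds_eq hk] at h1
    rw [G7_d h]
    exact h1

theorem Z_dr (h : Ctx D m a b LK G) (hA : Axis m g x0 v0 l) :
    BR.ds m x0 (g • x0) = l ∧ BR.dr m x0 (g • x0) = v0 := by
  have h1 : g • x0 = Ex m x0 (l • v0) := by
    rw [Ex_ray h.hX h.hm, hA.per]
  have h2 : Vx m x0 (g • x0) = l • v0 := by
    rw [h1, Vx_Ex h.hX h.hm]
  have h3 : BR.ds m x0 (g • x0) = l := by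
    unfold BR.ds
    rw [h2]
    have h4 : eu (l • v0) = ‖tc (l • v0)‖ := (norm_tc _).symm
    rw [h4, tc_smul, norm_mul, norm_tc, hA.unit, mul_one, Complex.norm_real, Real.norm_eq_abs,
      abs_of_pos hA.pos]
  refine ⟨h3, ?_⟩
  unfold BR.dr
  rw [h3, h2, smul_smul, inv_mul_cancel₀ hA.pos.ne', one_smul]

/-- The determinant of `P - 1` is `2 - tr P`. -/
theorem Dax_eq (h : Ctx D m a b LK G) (hG : SR85.HG D G) (hA : Axis m g x0 v0 l) :
    SR85.Dax G g x0 = trM m x0 v0 l - 2 := by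
  obtain ⟨h1, h2⟩ := Z_dr h hA
  have hne : x0 ≠ g • x0 := by
    intro he
    have h3 := hG.V_cont
    have h4 : BR.ds m x0 (g • x0) = 0 := by
      rw [← G7_d h, ← he]
      unfold SR85.Dat.d
      have h5 := hG.VE x0 0
      rw [hG.E_zero] at h5
      rw [h5, norm_zero]
    rw [h1] at h4
    exact hA.pos.ne' h4
  obtain ⟨h3, h4⟩ := G7_U h hne
  rw [h1, h2] at h3 h4
  have h5 : G.U x0 (g • x0) = deriv (JB m x0 v0) l / JB m x0 v0 l := by
    unfold SR85.Dat.U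
    rw [h3, G7_di h hne, G7_d h, h1, h2]
    have e := h.eq
    subst e
    show deriv (JB m x0 (tp (tc v0))) l / _ = _
    rw [tp_tc]
  have h6 : JB m x0 v0 l ≠ 0 := by
    rw [← h3]
    exact (SR85.J_pos hG hne).ne'
  unfold SR85.Dax trM
  rw [h5, h4, h3]
  field_simp
  ring

/-- The axes. -/
theorem axes_of (h : Ctx D m a b LK G) (hG : SR85.HG D G) {κ : ℝ}
    (hD : GH.GrpData (BGM.tl m) (GD.trg m) κ (Γ := Γ)) :
    ∃ A : SR85.Axes G, (∀ g : Γ, A.ll g = BGM.tl m g) ∧ ∀ g : Γ, g ≠ 1 →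
      SR85.Dax G g (A.cc g) = GD.trg m g - 2 ∧
        ∃ p : Γ, SR85.Root G A g p (GH.ellp (BGM.tl m) g) := by
  classical
  have key : ∀ g : Γ, ∃ q : Γ × (Pl × Pl), g ≠ 1 →
      Cls m g q.1 q.2.1 q.2.2 (BGM.tl m g) (BGM.tl m q.1) ∧
      GH.ellp (BGM.tl m) g = BGM.tl m q.1 ∧
      GD.trg m g = trM m q.2.1 q.2.2 (BGM.tl m g) := by
    intro g
    by_cases hg : g = 1
    · exact ⟨(1, (0, 0)), fun h => absurd hg h⟩
    · obtain ⟨p, n, x, v, hn, hpn, hp, hcl, htr⟩ := GD.cls_of h.hX h.hO h.hm hg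
      refine ⟨(p, (x, v)), fun _ => ⟨hcl, ?_, htr⟩⟩
      have h1 := GH.ellp_pow hD hp hn
      rw [hpn] at h1
      exact h1
  choose q hq using key
  refine ⟨⟨fun g => (q g).2.1, fun g => tc (q g).2.2, BGM.tl m,
    fun g hg => ax_of h (hq g hg).1.axis⟩, fun g => rfl, fun g hg => ⟨?_, (q g).1, ?_⟩⟩
  · obtain ⟨h1, h2, h3⟩ := hq g hg
    show SR85.Dax G g (q g).2.1 = _
    rw [Dax_eq h hG h1.axis, h3]
  · obtain ⟨h1, h2, h3⟩ := hq g hg
    refine ⟨?_, fun k hk => ?_, ?_, fun s => ?_⟩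
    · have h4 := (h1.cent (q g).1).2 (Subgroup.mem_zpowers _)
      exact h4
    · obtain ⟨j, hj⟩ := Subgroup.mem_zpowers_iff.1 ((h1.cent k).1 hk)
      exact ⟨j, hj.symm⟩
    · rw [h2]
      exact h1.axis0.pos
    · show (q g).1 • G.E (q g).2.1 ((s : ℂ) * tc (q g).2.2) =
        G.E (q g).2.1 (((s + GH.ellp (BGM.tl m) g : ℝ) : ℂ) * tc (q g).2.2)
      rw [Z_E h, Z_E h, h2]
      exact (GD.axis_tr h.hX h.hO h.hm h1.axis0 s).symm

/-- From extended sums to finite sums. -/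
theorem Z_fin {κ : ℝ} {ell tr : Γ → ℝ} (hD : GH.GrpData ell tr κ) {t : ℝ} (ht : 0 ≤ t) :
    (∑' c : {c : ConjClasses Γ // c ≠ ConjClasses.mk 1},
      if ell (Quotient.out c.1) ≤ t then
        ENNReal.ofReal (GH.ellp ell (Quotient.out c.1) / (tr (Quotient.out c.1) - 2))
      else 0).toReal =
    ∑ᶠ c ∈ {c : ConjClasses Γ | c ≠ ConjClasses.mk 1 ∧ GH.cf ell c ≤ t},
      GH.cf (GH.ellp ell) c / (GH.cf tr c - 2) := by
  classical
  set S : Set (ConjClasses Γ) := {c | c ≠ ConjClasses.mk 1 ∧ GH.cf ell c ≤ t} with hS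
  set f : ConjClasses Γ → ℝ := fun c => GH.cf (GH.ellp ell) c / (GH.cf tr c - 2) with hf
  have hfin : S.Finite := by
    obtain ⟨C, hC⟩ := hD.count
    refine (hC t ht).1.subset fun c hc => ⟨Quotient.out c, ?_, hc.2⟩
    exact Quotient.out_eq c
  have hout : ∀ c : ConjClasses Γ, ConjClasses.mk (Quotient.out c : Γ) = c :=
    fun c => Quotient.out_eq c
  have hne : ∀ c : ConjClasses Γ, c ≠ ConjClasses.mk 1 → (Quotient.out c : Γ) ≠ 1 := by
    intro c hc h1
    exact hc (by rw [← hout c, h1])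
  have hpos : ∀ c ∈ S, 0 ≤ f c := by
    intro c hc
    have h1 := hD.lb _ (hne c hc.1)
    have h2 : 0 ≤ tr (Quotient.out c) - 2 := le_trans (by positivity) h1
    obtain ⟨p, n, hp, hn, hpn, -⟩ := hD.root _ (hne c hc.1)
    have h3 : GH.ellp ell (Quotient.out c) = ell p := by
      have h4 := GH.ellp_pow hD hp hn
      rwa [hpn] at h4
    have h4 : 0 < ell p := hD.pos p (GH.prim_ne hp)
    show 0 ≤ GH.ellp ell (Quotient.out c) / (tr (Quotient.out c) - 2)
    rw [h3]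
    positivity
  have e1 : (∑' c : {c : ConjClasses Γ // c ≠ ConjClasses.mk 1},
      if ell (Quotient.out c.1) ≤ t then
        ENNReal.ofReal (GH.ellp ell (Quotient.out c.1) / (tr (Quotient.out c.1) - 2))
      else 0) = ∑ c ∈ hfin.toFinset, ENNReal.ofReal (f c) := by
    have e2 := tsum_subtype {c : ConjClasses Γ | c ≠ ConjClasses.mk 1}
      (fun c => if GH.cf ell c ≤ t then ENNReal.ofReal (f c) else 0)
    refine e2.trans ?_
    rw [tsum_eq_sum (s := hfin.toFinset)]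
    · refine Finset.sum_congr rfl fun c hc => ?_
      have hc' : c ∈ S := hfin.mem_toFinset.1 hc
      rw [Set.indicator_of_mem (by exact hc'.1), if_pos hc'.2]
    · intro c hc
      have hc' : c ∉ S := fun h1 => hc (hfin.mem_toFinset.2 h1)
      by_cases h1 : c ≠ ConjClasses.mk 1
      · rw [Set.indicator_of_mem (by exact h1), if_neg fun h2 => hc' ⟨h1, h2⟩]
      · rw [Set.indicator_of_notMem (by exact h1)]
  rw [e1, finsum_mem_eq_finite_toFinset_sum _ hfin,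
    ENNReal.toReal_sum fun c _ => ENNReal.ofReal_ne_top]
  exact Finset.sum_congr rfl fun c hc =>
    ENNReal.toReal_ofReal (hpos c (hfin.mem_toFinset.1 hc))

/-- **The sum rule.** -/
theorem sumrule (hX : Surface Γ D) (hO : Ori Γ) (m : Mt Γ D) :
    GWin.SumRule (GH.geo (BGM.tl m.1.1) (GD.trg m.1.1) (Γ := Γ)) := by
  obtain ⟨a, b, LK, hc, hG⟩ := hg_of hX hO m
  have hD := GD.grpData hX hO hc.hm hc.a_pos hc.K_le
  refine GH.sumrule_of hD ?_
  obtain ⟨A, hll, hA⟩ := axes_of hc hG hD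
  obtain ⟨ψ, hψ⟩ := SR85.exists_part hX
  have h1 := SR85.Lam_lim hX hG A hψ
  refine h1.congr' ?_
  filter_upwards [eventually_ge_atTop (0 : ℝ)] with t ht
  congr 1
  have hout : ∀ c : ConjClasses Γ, ConjClasses.mk (Quotient.out c : Γ) = c :=
    fun c => Quotient.out_eq c
  have hne : ∀ c : ConjClasses Γ, c ≠ ConjClasses.mk 1 → (Quotient.out c : Γ) ≠ 1 := by
    intro c hc h1
    exact hc (by rw [← hout c, h1])
  rw [SR85.Lam_class hX hG A hψ (GH.ellp (BGM.tl m.1.1)) (fun g hg => (hA g hg).2) t]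
  refine Eq.trans ?_ (Z_fin hD ht)
  congr 1
  refine tsum_congr fun c => ?_
  rw [hll, (hA _ (hne c.1 c.2)).1]

end SR85Z
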